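import Pool.Agent.helper5.LDH.Spec

set_option autoImplicit false

open Complex MeasureTheory

namespace Pool.Agent.LDH

open Pool.Agent.helper84.DM Pool.Agent.helper78.ED Pool.Agent.DH

theorem ABL_id (v : ℕ → ℝ) (z : ℕ → ℂ) (a b : ℕ) (hab : a ≤ b) :
    ∑ n ∈ Finset.Ioc a b, ((v n : ℝ) : ℂ) * z n =
      ((v b : ℝ) : ℂ) * (∑ n ∈ Finset.Ioc a b, z n) -
        ∑ n ∈ Finset.Ioo a b, ((v (n + 1) - v n : ℝ) : ℂ) * ∑ k ∈ Finset.Ioc a n, z k := by
  induction b, hab using Nat.le_induction with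
  | base => simp
  | succ b hab ih =>
    rw [Finset.sum_Ioc_succ_top hab, Finset.sum_Ioc_succ_top hab, ih]
    rcases eq_or_lt_of_le hab with h | h
    · subst h
      have e : Finset.Ioo a (a + 1) = ∅ := by
        ext x
        simp only [Finset.mem_Ioo, Finset.notMem_empty, iff_false]
        omega
      rw [e]
      simp
    · have e : Finset.Ioo a (b + 1) = insert b (Finset.Ioo a b) := by
        ext x
        simp only [Finset.mem_Ioo, Finset.mem_insert]
        omega
      rw [e, Finset.sum_insert (by simp)]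
      push_cast
      ring

theorem ABL : ABL_stmt := by
  intro v z a b M hab hM
  rw [ABL_id v z a b hab]
  have h1 : ‖((v b : ℝ) : ℂ) * (∑ n ∈ Finset.Ioc a b, z n)‖ ≤ |v b| * M := by
    rw [norm_mul, Complex.norm_real, Real.norm_eq_abs]
    exact mul_le_mul_of_nonneg_left (hM b hab le_rfl) (abs_nonneg _)
  have h2 : ‖∑ n ∈ Finset.Ioo a b, ((v (n + 1) - v n : ℝ) : ℂ) * ∑ k ∈ Finset.Ioc a n, z k‖ ≤
      ∑ n ∈ Finset.Ioo a b, |v (n + 1) - v n| * M := by
    refine (norm_sum_le _ _).trans (Finset.sum_le_sum fun n hn => ?_)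
    have hn' := Finset.mem_Ioo.1 hn
    rw [norm_mul, Complex.norm_real, Real.norm_eq_abs]
    exact mul_le_mul_of_nonneg_left (hM n hn'.1.le hn'.2.le) (abs_nonneg _)
  refine (norm_sub_le _ _).trans ((add_le_add h1 h2).trans (le_of_eq ?_))
  rw [← Finset.sum_mul]
  ring

end Pool.Agent.LDH
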